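import Pool.Agent.W425.SV.Defs
import Pool.Agent.W372.SG.G1

set_option autoImplicit false

/-! Project SV, part V1: descent from `ℂ` to `F[y]` (helper74). -/

namespace Pool.Agent.W74.SV

open MvPolynomial Pool.Agent.H628R4.TZ Pool.Agent.W425.SM Pool.Agent.W425.SL Pool.Agent.W425.SG
  Pool.Agent.W425.SV Pool.Agent.W372.SG
open Pool.Agent.H628R4.TP (weylS)

/-- **V1** -/
theorem taskV1 : TaskV1 := by
  classical
  intro r N F _ _ loc v h a b ha hU
  obtain ⟨A0, P, hA0, hA1, hfe⟩ := hU
  -- rings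
  let R := MvPolynomial (Fin r) F
  let K := FractionRing (MvPolynomial (Fin r) F)
  let ι : MvPolynomial (Fin r) F →+* K := algebraMap _ K
  have hι : Function.Injective ι := IsFractionRing.injective _ K
  let φ : MvPolynomial (Fin r) F →+* ℂ := (aeval a : MvPolynomial (Fin r) F →ₐ[F] ℂ).toRingHom
  have hφ : Function.Injective φ := ha
  let ψ : K →+* ℂ := IsFractionRing.lift hφ
  have hψ : ∀ x, ψ (ι x) = φ x := fun x => IsFractionRing.lift_algebraMap hφ x
  obtain ⟨π, hπ, hπ1⟩ := retr ψ
  -- the action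
  choose Q0 hQf hQ using fun (T : weylS (Fin N)) =>
    Pool.Agent.H628R4.TP.act_weyl (T : Module.End ℂ (MvPolynomial (Fin N) ℂ)) T.2
  set D : Finset (Fin N → ℤ) := P.support.biUnion fun m => (hQf (P m)).toFinset with hD
  have hD' : ∀ m ∈ P.support, ∀ u, Q0 (P m) u ≠ 0 → u ∈ D := by
    intro m hm u hu
    rw [hD, Finset.mem_biUnion]
    exact ⟨m, hm, (Set.Finite.mem_toFinset _).2 hu⟩
  -- constants
  have hcst : ∀ x : F, ψ (ι (C x)) = algebraMap F ℂ x := by
    intro x
    rw [hψ]
    exact (aeval a : MvPolynomial (Fin r) F →ₐ[F] ℂ).commutes x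
  have hsp : ∀ s : ℕ, (sparse v a + map (algebraMap F ℂ) h) ^ s = map ψ (map ι (genH v h ^ s)) := by
    intro s
    rw [map_map, map_pow]
    congr 1
    unfold sparse genH
    rw [map_add, map_sum, map_map]
    congr 1
    · refine Finset.sum_congr rfl fun j _ => ?_
      rw [map_mul, map_C, map_prod]
      congr 1
      · congr 1
        show a j = ψ (ι (X j))
        rw [hψ]
        exact (aeval_X a j).symm
      · refine Finset.prod_congr rfl fun i _ => ?_
        rw [map_pow, map_X]
    · have h1 : algebraMap F ℂ = ((ψ.comp ι).comp C) := by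
        refine RingHom.ext fun x => ?_
        show algebraMap F ℂ x = ψ (ι (C x))
        rw [hcst]
      rw [← h1]
  have hb : ∀ s : ℕ, (b.map (algebraMap F ℂ)).eval (s : ℂ) = ψ (ι (C (b.eval (s : F)))) := by
    intro s
    rw [hcst]
    have h2 := Polynomial.eval_map_apply (algebraMap F ℂ) (p := b) (s : F)
    rw [map_natCast] at h2
    exact h2
  -- the equation over `K`
  have hK : ∀ (s : ℕ) (e : Fin N →₀ ℕ),
      ι (C (b.eval (s : F))) * coeff e (pm π A0 * map ι (genH v h ^ s)) =
        ∑ m ∈ P.support, ι (C ((s : F) ^ m)) * ∑ δ ∈ D, if ∀ i, 0 ≤ (e i : ℤ) + δ i then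
          eval (fun i => ι (C ((((e i : ℤ) + δ i : ℤ)) : F))) (pm π (Q0 (P m) δ)) *
          (ι (C (∏ i, ((((e i : ℤ) + δ i).toNat.descFactorial (δ i).toNat : ℕ) : F))) *
          ι (coeff (ed e δ) (genH v h ^ (s + 1)))) else 0 := by
    intro s e
    have h1 := congrArg (coeff e) (hfe s)
    rw [mul_assoc, coeff_C_mul, hb, hsp s, Finsupp.sum, coeff_sum] at h1
    have h2 := congrArg π h1
    rw [hπ, coeff_mul_pm ψ π hπ, map_sum] at h2
    rw [h2]
    refine Finset.sum_congr rfl fun m hm => ?_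
    rw [coeff_smul, smul_eq_mul, coeff_act _ (Q0 (P m)) (hQ (P m)) D (hD' m hm)]
    have h3 : (s : ℂ) ^ m = ψ (ι (C ((s : F) ^ m))) := by
      rw [hcst]; simp
    rw [h3, hπ, map_sum]
    congr 1
    refine Finset.sum_congr rfl fun δ _ => ?_
    split_ifs
    · rw [hsp (s + 1), coeff_map, coeff_map, eval_pm ψ π hπ]
      have h4 : (∏ i, ((((e i : ℤ) + δ i).toNat.descFactorial (δ i).toNat : ℕ) : ℂ)) =
          ψ (ι (C (∏ i, ((((e i : ℤ) + δ i).toNat.descFactorial (δ i).toNat : ℕ) : F)))) := by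
        rw [hcst]; simp
      have h5 : (fun i => ψ (ι (C ((((e i : ℤ) + δ i : ℤ)) : F)))) =
          fun i => ((((e i : ℤ) + δ i : ℤ)) : ℂ) := by
        funext i
        rw [hcst]; simp
      rw [h4, h5, ← map_mul ψ, mul_comm, hπ, mul_comm]
    · exact map_zero π
  -- denominators
  obtain ⟨d, q, hd, hq⟩ := clear_den (R := MvPolynomial (Fin r) F) (K := K)
    (insert none ((P.support ×ˢ D).image some))
    (fun o : Option (ℕ × (Fin N → ℤ)) => match o with
      | none => pm π A0
      | some x => pm π (Q0 (P x.1) x.2))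
  have hqA : map ι (q none) = C (ι d) * pm π A0 := hq none (Finset.mem_insert_self _ _)
  have hqQ : ∀ m ∈ P.support, ∀ δ ∈ D, map ι (q (some (m, δ))) =
      C (ι d) * pm π (Q0 (P m) δ) := fun m hm δ hδ =>
    hq (some (m, δ)) (Finset.mem_insert_of_mem (Finset.mem_image_of_mem _
      (Finset.mem_product.2 ⟨hm, hδ⟩)))
  have hcA : ∀ γ, ι (coeff γ (q none)) = ι d * π (coeff γ A0) := by
    intro γ
    have h1 := congrArg (coeff γ) hqA
    rwa [coeff_map, coeff_C_mul, coeff_pm] at h1
  refine ⟨q none, D, P.support, fun m δ => q (some (m, δ)), ?_, ?_, ?_⟩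
  · intro h0
    have h1 := hcA 0
    have h2 : coeff 0 A0 = 1 := by
      rw [← constantCoeff_eq]; exact hA0
    rw [h0, map_zero, h2, hπ1, mul_one] at h1
    exact hd (hι (by rw [← h1, map_zero]))
  · intro hloc γ hγ
    have h1 := hcA γ
    have h2 : coeff γ A0 = 0 := by
      rw [hA1 hloc, coeff_one, if_neg (Ne.symm hγ)]
    rw [h2, map_zero, mul_zero] at h1
    exact hι (by rw [h1, map_zero])
  · intro s e
    apply hι
    have hl : ι (C (b.eval (s : F)) * coeff e (q none * genH v h ^ s)) =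
        ι d * (ι (C (b.eval (s : F))) * coeff e (pm π A0 * map ι (genH v h ^ s))) := by
      rw [map_mul, ← coeff_map ι, map_mul (map ι), hqA, mul_assoc, coeff_C_mul]
      ring
    rw [hl, hK s e, map_sum, Finset.mul_sum]
    refine Finset.sum_congr rfl fun m hm => ?_
    rw [map_mul, map_sum, mul_left_comm, Finset.mul_sum]
    congr 1
    refine Finset.sum_congr rfl fun δ hδ => ?_
    split_ifs
    · have h1 : eval (fun i => ι (C ((((e i : ℤ) + δ i : ℤ)) : F))) (map ι (q (some (m, δ)))) =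
          ι (eval (fun i => C ((((e i : ℤ) + δ i : ℤ)) : F)) (q (some (m, δ)))) := by
        rw [eval_map]
        exact (eval₂_comp ι _ _).symm
      rw [hqQ m hm δ hδ, map_mul, eval_C] at h1
      rw [map_mul, map_mul, ← h1]
      show _ = _ * ι (coeff (ed e δ) (genH v h ^ (s + 1)))
      ring
    · rw [mul_zero, map_zero]

end Pool.Agent.W74.SV
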